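import Mathlib
import Pool.Agent.Work.MP_76e736_lc.Main

/-! A language of a linear cellular array that no array accepts in time `O(n * g n)`, for a
monotone unbounded `g`; in particular in no linear time. -/

namespace Pool.Agent.Results.MP_76e736_lc.SuperlinearGap

open Filter Asymptotics

/-- A two-way linear cellular array over the input alphabet `S`: a finite state set `Q`, the
start state `init a` of a node that holds the input letter `a`, the local rule (`none` is the
boundary state seen by the two end nodes) and the accepting states. -/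
structure LCA (S : Type) where
  Q : Type
  finQ : Finite Q
  init : S → Q
  rule : Option Q → Q → Option Q → Q
  acc : Set Q

/-- One synchronous step of the array with `n` nodes. -/
def LCA.step {S : Type} (A : LCA S) {n : ℕ} (c : Fin n → A.Q) (i : Fin n) : A.Q :=
  A.rule (if 0 < i.val then some (c ⟨i.val - 1, lt_of_le_of_lt (Nat.sub_le _ _) i.isLt⟩) else none)
    (c i) (if h : i.val + 1 < n then some (c ⟨i.val + 1, h⟩) else none)

/-- The states of the nodes at time `t` on input `w`. -/
def LCA.cfg {S : Type} (A : LCA S) (w : List S) (t : ℕ) : Fin w.length → A.Q :=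
  A.step^[t] (fun i => A.init (w.get i))

/-- The leftmost node is in an accepting state at time `t`. -/
def LCA.AccAt {S : Type} (A : LCA S) (w : List S) (t : ℕ) : Prop :=
  ∃ h : 0 < w.length, A.cfg w t ⟨0, h⟩ ∈ A.acc

/-- The accepted language (no time bound). -/
def LCA.lang {S : Type} (A : LCA S) : Set (List S) := {w | ∃ t, A.AccAt w t}

/-- Time complexity `T`: every accepted input of length `n` is accepted within `T n` steps. -/
def LCA.HasTime {S : Type} (A : LCA S) (T : ℕ → ℝ) : Prop :=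
  ∀ w ∈ A.lang, ∃ t : ℕ, (t : ℝ) ≤ T w.length ∧ A.AccAt w t

open Pool.Agent.Work.MP_76e736_lc

theorem cfg_eq {S D : Type} (A : LCA S) (δ : Option D → Option D → Option D → D) (ini : S → D)
    (π : A.Q → D) (hini : ∀ a, π (A.init a) = ini a)
    (hδ : ∀ l q r, π (A.rule l q r) = δ (l.map π) (some (π q)) (r.map π)) (w : List S) (t : ℕ) :
    ∀ i : Fin w.length, caCfg δ ini w t (i.val + 1) = some (π (A.cfg w t i)) := by
  induction t with
  | zero =>
    intro i
    simp [caCfg, caInit, LCA.cfg, hini]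
  | succ t ih =>
    intro i
    have hi := i.isLt
    rw [caCfg_succ]
    have h1 : 1 ≤ i.val + 1 ∧ i.val + 1 ≤ w.length := by omega
    simp only [caStep, h1, and_self, if_true, LCA.cfg, Function.iterate_succ_apply']
    rw [LCA.step, hδ]
    have e2 := ih i
    simp only [LCA.cfg] at e2
    rw [e2]
    congr 2
    · by_cases h0 : 0 < i.val
      · have := ih ⟨i.val - 1, by omega⟩
        simp only [LCA.cfg] at this
        rw [if_pos h0, Option.map_some, ← this]
        congr 1
        omega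
      · rw [if_neg h0, caCfg_none δ ini w t _ (by omega)]
        rfl
    · by_cases h0 : i.val + 1 < w.length
      · have := ih ⟨i.val + 1, h0⟩
        simp only [LCA.cfg] at this
        rw [dif_pos h0, Option.map_some, ← this]
      · rw [dif_neg h0, caCfg_none δ ini w t _ (by omega)]
        rfl

theorem accAt_iff {S D : Type} (A : LCA S) (δ : Option D → Option D → Option D → D) (ini : S → D)
    (F : D → Prop) (π : A.Q → D) (hini : ∀ a, π (A.init a) = ini a)
    (hδ : ∀ l q r, π (A.rule l q r) = δ (l.map π) (some (π q)) (r.map π))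
    (hF : ∀ q, q ∈ A.acc ↔ F (π q)) (w : List S) (t : ℕ) :
    A.AccAt w t ↔ caAccAt δ ini F w t := by
  unfold LCA.AccAt caAccAt
  constructor
  · rintro ⟨h, hq⟩
    exact ⟨_, (hF _).1 hq, cfg_eq A δ ini π hini hδ w t ⟨0, h⟩⟩
  · rintro ⟨q, hq, h⟩
    by_cases h0 : 0 < w.length
    · refine ⟨h0, (hF _).2 ?_⟩
      have := cfg_eq A δ ini π hini hδ w t ⟨0, h0⟩
      simp only [zero_add] at this
      rw [this] at h
      rw [Option.some.inj h]
      exact hq
    · rw [caCfg_none δ ini w t 1 (by omega)] at h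
      cases h

/-- Codes of arrays together with a constant. -/
abbrev Code : Type :=
  Σ m : ℕ, (Option (Fin m) → Option (Fin m) → Option (Fin m) → Fin m) × (Sym → Fin m) ×
    Set (Fin m) × ℕ

theorem result :
    ∃ (k : ℕ) (A : LCA (Fin k)) (g : ℕ → ℕ), Function.Injective A.init ∧
      Monotone g ∧ (∀ n, 1 ≤ g n) ∧ Tendsto g atTop atTop ∧
      ∀ (B : LCA (Fin k)) (T : ℕ → ℝ), T =O[atTop] (fun n : ℕ => (n : ℝ) * g n) →
        B.HasTime T → B.lang ≠ A.lang := by
  classical
  obtain ⟨D, hD, δD, iniD, FD, hdiag⟩ := diag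
  let eS := Fintype.equivFin Sym
  obtain ⟨enc, henc⟩ := exists_injective_nat Code
  have hx : ∀ x : Code, ∃ (w : List Sym) (T : ℕ), ((enc x + 1) * x.2.2.2.2) * w.length ≤ T ∧
      ((∃ t, caAccAt δD iniD FD w t) ↔
        ¬ ∃ t, t ≤ T ∧ caAccAt x.2.1 x.2.2.1 (fun q => q ∈ x.2.2.2.1) w t) :=
    fun x => hdiag (Fin x.1) x.2.1 x.2.2.1 (fun q => q ∈ x.2.2.2.1) _
  choose W TT hT hW using hx
  let Sn : ℕ → Set ℕ := fun n => {k | n < k ∨ ∃ x, enc x + 1 = k ∧ n ≤ (W x).length}
  have hne : ∀ n, (Sn n).Nonempty := fun n => ⟨n + 1, Or.inl (by omega)⟩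
  let g : ℕ → ℕ := fun n => sInf (Sn n)
  have hmono : Monotone g := by
    intro a b hab
    refine Nat.sInf_le ?_
    rcases Nat.sInf_mem (hne b) with h | ⟨x, h1, h2⟩
    · exact Or.inl (lt_of_le_of_lt hab h)
    · exact Or.inr ⟨x, h1, hab.trans h2⟩
  have hpos : ∀ n, 1 ≤ g n := by
    intro n
    rcases Nat.sInf_mem (hne n) with h | ⟨x, h1, h2⟩
    · exact Nat.succ_le_of_lt (lt_of_le_of_lt (Nat.zero_le _) h)
    · simp only [g]; omega
  have hg : ∀ x, g (W x).length ≤ enc x + 1 := fun x => Nat.sInf_le (Or.inr ⟨x, rfl, le_rfl⟩)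
  have htend : Tendsto g atTop atTop := by
    refine hmono.tendsto_atTop_atTop (fun K => ?_)
    have hfin : {x : Code | enc x < K}.Finite :=
      (Set.finite_lt_nat K).preimage henc.injOn
    obtain ⟨M, hM⟩ := (hfin.image (fun x => (W x).length)).bddAbove
    refine ⟨M + K + 1, ?_⟩
    rcases Nat.sInf_mem (hne (M + K + 1)) with h | ⟨x, h1, h2⟩
    · simp only [g]; omega
    · by_contra hlt
      have : (W x).length ≤ M := hM ⟨x, by simp only [g] at hlt; simp only [Set.mem_ofPred_eq]; omega, rfl⟩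
      omega
  let π : Fin (Fintype.card Sym) ⊕ D → D := Sum.elim (iniD ∘ eS.symm) id
  let A : LCA (Fin (Fintype.card Sym)) :=
    { Q := Fin (Fintype.card Sym) ⊕ D
      finQ := inferInstance
      init := Sum.inl
      rule := fun l q r => Sum.inr (δD (l.map π) (some (π q)) (r.map π))
      acc := {q | FD (π q)} }
  have hA : ∀ (w : List Sym) (t : ℕ), A.AccAt (w.map eS) t ↔ caAccAt δD iniD FD w t := by
    intro w t
    rw [accAt_iff A δD (iniD ∘ eS.symm) FD π (fun _ => rfl) (fun _ _ _ => rfl) (fun _ => Iff.rfl)]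
    unfold caAccAt
    rw [caCfg_map_input]
    have : (iniD ∘ eS.symm) ∘ eS = iniD := by
      funext a
      simp
    rw [this]
  refine ⟨_, A, g, Sum.inl_injective, hmono, hpos, htend, fun B T hO hB hL => ?_⟩
  -- a uniform constant for all positive lengths
  obtain ⟨C, hC⟩ : ∃ C : ℕ, ∀ n : ℕ, 0 < n → T n ≤ (C : ℝ) * ((n : ℝ) * g n) := by
    obtain ⟨c, hc⟩ := hO.bound
    obtain ⟨N, hN⟩ := eventually_atTop.1 hc
    obtain ⟨M, hM⟩ := ((Set.finite_lt_nat N).image T).bddAbove
    obtain ⟨C, hC⟩ := exists_nat_ge (max c M)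
    refine ⟨C, fun n hn => ?_⟩
    have h1 : (1 : ℝ) ≤ (n : ℝ) * g n := by
      have : 1 ≤ n * g n := Nat.mul_pos hn (hpos n)
      exact_mod_cast this
    have hC0 : (0 : ℝ) ≤ C := Nat.cast_nonneg C
    by_cases hnN : n < N
    · have : T n ≤ M := hM ⟨n, hnN, rfl⟩
      have h2 : M ≤ C := (le_max_right _ _).trans hC
      nlinarith
    · have h2 := hN n (by omega)
      rw [Real.norm_eq_abs, Real.norm_eq_abs, abs_of_nonneg (by linarith : (0 : ℝ) ≤ (n : ℝ) * g n)] at h2
      have h3 : c ≤ C := (le_max_left _ _).trans hC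
      have h4 := le_abs_self (T n)
      nlinarith
  have := B.finQ
  let _ : Fintype B.Q := Fintype.ofFinite _
  let e := Fintype.equivFin B.Q
  let δ : Option (Fin (Fintype.card B.Q)) → Option (Fin (Fintype.card B.Q)) →
      Option (Fin (Fintype.card B.Q)) → Fin (Fintype.card B.Q) := fun l s r =>
    e (B.rule (l.map e.symm) ((s.map e.symm).getD (B.init (eS none))) (r.map e.symm))
  let x : Code := ⟨Fintype.card B.Q, δ, (e ∘ B.init) ∘ eS, {q | e.symm q ∈ B.acc}, C⟩
  have hBx : ∀ (w : List Sym) (t : ℕ), B.AccAt (w.map eS) t ↔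
      caAccAt x.2.1 x.2.2.1 (fun q => q ∈ x.2.2.2.1) w t := by
    intro w t
    rw [accAt_iff B δ (e ∘ B.init) (fun q => e.symm q ∈ B.acc) e (fun _ => rfl)
      (fun l q r => by simp [δ]) (fun q => by simp)]
    unfold caAccAt
    rw [caCfg_map_input]
    rfl
  have hmem : (W x).map eS ∈ B.lang ↔ ∃ t, caAccAt δD iniD FD (W x) t := by
    rw [hL]
    simp only [LCA.lang, Set.mem_ofPred_eq, hA]
  by_cases hacc : ∃ t, t ≤ TT x ∧ caAccAt x.2.1 x.2.2.1 (fun q => q ∈ x.2.2.2.1) (W x) t
  · obtain ⟨t, ht, h⟩ := hacc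
    exact (hW x).1 (hmem.1 ⟨t, (hBx _ _).2 h⟩) ⟨t, ht, h⟩
  · obtain ⟨t, ht, h⟩ := hB _ (hmem.2 ((hW x).2 hacc))
    refine hacc ⟨t, ?_, (hBx _ _).1 h⟩
    have hlen : 0 < (W x).length := by
      obtain ⟨h0, -⟩ := h
      simpa using h0
    rw [List.length_map] at ht
    have h1 := ht.trans (hC _ hlen)
    have h2 : t ≤ C * ((W x).length * g (W x).length) := by exact_mod_cast h1
    have h3 := hT x
    have h4 : x.2.2.2.2 = C := rfl
    rw [h4] at h3
    have h5 : C * ((W x).length * g (W x).length) ≤ C * ((W x).length * (enc x + 1)) :=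
      Nat.mul_le_mul_left _ (Nat.mul_le_mul_left _ (hg x))
    nlinarith

end Pool.Agent.Results.MP_76e736_lc.SuperlinearGap
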